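import Pool.Agent.Helper34.FF.Goals1

namespace Pool.Agent.Helper92.FF

open Finset Pool.Agent.Helper34.FF
open scoped Classical

theorem hits_mono {V : Type} {G : SimpleGraph V} {C : Finset V} {w c : V} {t t' : ℕ}
    (h : t ≤ t') (H : Hits G C w t c) : Hits G C w t' c := by
  obtain ⟨k, hk, a, ha⟩ := H
  exact ⟨k, hk.trans h, a, ha⟩

/-- Extend a walk by one step. -/
theorem isW_snoc {V : Type} {G : SimpleGraph V} {k : ℕ} {a : ℕ → V} {x y z : V}
    (h : IsW G k a x y) (hyz : G.Adj y z) :
    IsW G (k + 1) (fun i => if i ≤ k then a i else z) x z := by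
  obtain ⟨h0, hk, hs⟩ := h
  refine ⟨by simp [h0], by simp, ?_⟩
  intro i hi
  rcases Nat.lt_or_ge i k with h | h
  · have h1 : i ≤ k := h.le
    have h2 : i + 1 ≤ k := h
    simp only [h1, h2, if_true]
    exact hs i h
  · have h1 : i = k := by omega
    subst h1
    simp only [le_refl, if_true, Nat.succ_le_iff, lt_irrefl, if_false, hk]
    exact hyz

/-- A good barrier can be protected in time. -/
theorem exists_strategy {V : Type} [Fintype V] (G : SimpleGraph V) (w : V) (C : Finset V)
    (hgood : Good G w C) :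
    ∃ σ : ℕ → Finset V, (∀ t, σ t ⊆ C) ∧ (∀ t, 1 ≤ t → (σ t).card ≤ 2) ∧
      ∀ t, ∀ c ∈ C, Hits G C w t c → c ∈ prot σ t := by
  obtain ⟨hwC, hcard⟩ := hgood
  set C' := C.filter (fun c => ∃ t, Hits G C w t c) with hC'
  let τ : V → ℕ := fun c => if h : ∃ t, Hits G C w t c then Nat.find h else 0
  have hτ : ∀ c ∈ C', Hits G C w (τ c) c := by
    intro c hc
    have h := (mem_filter.1 hc).2
    have : τ c = Nat.find h := by simp only [τ, h, dif_pos]
    rw [this]
    exact Nat.find_spec h
  have hτle : ∀ c t, Hits G C w t c → τ c ≤ t := by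
    intro c t ht
    have h : ∃ t, Hits G C w t c := ⟨t, ht⟩
    have : τ c = Nat.find h := by simp only [τ, h, dif_pos]
    rw [this]
    exact Nat.find_min' h ht
  have hτ1 : ∀ c ∈ C', 1 ≤ τ c := by
    intro c hc
    by_contra hlt
    have h0 : τ c = 0 := by omega
    obtain ⟨k, hk, a, ⟨ha0, hak, -⟩, -⟩ := hτ c hc
    rw [h0] at hk
    have hk0 : k = 0 := by omega
    subst hk0
    have : w = c := by rw [← ha0, ← hak]
    exact hwC (this ▸ (mem_filter.1 hc).1)
  let N := Fintype.card V
  let idx : V → ℕ := fun v => (Fintype.equivFin V v).val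
  have hidx : ∀ v, idx v < N := fun v => (Fintype.equivFin V v).isLt
  have hidxinj : ∀ u v, idx u = idx v → u = v := by
    intro u v h
    exact (Fintype.equivFin V).injective (Fin.ext h)
  let key : V → ℕ := fun c => τ c * N + idx c
  have hkeyinj : ∀ u v, key u = key v → u = v := by
    intro u v h
    have hN : 0 < N := (Nat.zero_le _).trans_lt (hidx u)
    apply hidxinj
    have h1 : key u % N = idx u := by
      simp only [key]
      rw [Nat.add_comm, Nat.add_mul_mod_self_right, Nat.mod_eq_of_lt (hidx u)]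
    have h2 : key v % N = idx v := by
      simp only [key]
      rw [Nat.add_comm, Nat.add_mul_mod_self_right, Nat.mod_eq_of_lt (hidx v)]
    rw [← h1, ← h2, h]
  have hkeyle : ∀ u v, key u ≤ key v → τ u ≤ τ v := by
    intro u v h
    by_contra hlt
    push Not at hlt
    have h1 : τ v * N + N ≤ τ u * N := by
      have : τ v + 1 ≤ τ u := hlt
      calc τ v * N + N = (τ v + 1) * N := by ring
        _ ≤ τ u * N := Nat.mul_le_mul_right N this
    have h2 := hidx v
    simp only [key] at h
    omega
  let rank : V → ℕ := fun c => (C'.filter fun c' => key c' < key c).card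
  have hrank_lt : ∀ u ∈ C', ∀ v ∈ C', key u < key v → rank u < rank v := by
    intro u hu v hv h
    apply card_lt_card
    rw [ssubset_iff_of_subset]
    · exact ⟨u, by simp [hu, h], by simp⟩
    · intro x hx
      rw [mem_filter] at hx ⊢
      exact ⟨hx.1, hx.2.trans h⟩
  have hrankinj : ∀ u ∈ C', ∀ v ∈ C', rank u = rank v → u = v := by
    intro u hu v hv h
    rcases lt_trichotomy (key u) (key v) with h1 | h1 | h1
    · exact absurd h (hrank_lt u hu v hv h1).ne
    · exact hkeyinj u v h1
    · exact absurd h.symm (hrank_lt v hv u hu h1).ne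
  have hrank2 : ∀ c ∈ C', rank c < 2 * τ c := by
    intro c hc
    have h1 : rank c < (C.filter fun c' => Hits G C w (τ c) c').card := by
      apply card_lt_card
      rw [ssubset_iff_of_subset]
      · exact ⟨c, by simp [(mem_filter.1 hc).1, hτ c hc], by simp⟩
      · intro x hx
        rw [mem_filter] at hx ⊢
        exact ⟨(mem_filter.1 hx.1).1, hits_mono (hkeyle x c hx.2.le) (hτ x hx.1)⟩
    exact h1.trans_le (hcard _ (hτ1 c hc))
  refine ⟨fun t => C'.filter fun c => rank c / 2 + 1 = t, ?_, ?_, ?_⟩
  · intro t c hc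
    exact (mem_filter.1 (mem_filter.1 hc).1).1
  · intro t ht
    have h1 : ((C'.filter fun c => rank c / 2 + 1 = t).image rank) ⊆ {2 * (t - 1), 2 * (t - 1) + 1} := by
      intro r hr
      rw [mem_image] at hr
      obtain ⟨c, hc, rfl⟩ := hr
      have := (mem_filter.1 hc).2
      rw [mem_insert, mem_singleton]
      omega
    have h2 : ((C'.filter fun c => rank c / 2 + 1 = t).image rank).card =
        (C'.filter fun c => rank c / 2 + 1 = t).card := by
      apply card_image_of_injOn
      intro u hu v hv h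
      exact hrankinj u (mem_filter.1 hu).1 v (mem_filter.1 hv).1 h
    rw [← h2]
    exact (card_le_card h1).trans card_le_two
  · intro t c hc hh
    have hcC' : c ∈ C' := by
      rw [hC', mem_filter]
      exact ⟨hc, t, hh⟩
    have h1 := hrank2 c hcC'
    have h2 := hτle c t hh
    rw [prot, mem_biUnion]
    refine ⟨rank c / 2 + 1, ?_, ?_⟩
    · rw [mem_Icc]
      omega
    · rw [mem_filter]
      exact ⟨hcC', rfl⟩

theorem pf_StmtFire : StmtFire := by
  intro V _ G₀ G hle w C hgood Q hQ
  obtain ⟨σ, hσC, hσ2, hσp⟩ := exists_strategy G w C hgood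
  have hburn : ∀ t, ∀ x ∈ burn G₀ w σ t, ∃ k ≤ t, ∃ a, IsW G k a w x ∧ ∀ i ≤ k, a i ∉ C := by
    intro t
    induction t with
    | zero =>
      intro x hx
      have hx' : x = w := by simpa [burn] using hx
      subst hx'
      refine ⟨0, le_rfl, fun _ => x, ⟨rfl, rfl, fun i hi => absurd hi (Nat.not_lt_zero i)⟩, ?_⟩
      intro i _
      exact hgood.1
    | succ t ih =>
      intro y hy
      rw [burn, mem_union] at hy
      rcases hy with hy | hy
      · obtain ⟨k, hk, a, ha⟩ := ih y hy
        exact ⟨k, hk.trans (Nat.le_succ t), a, ha⟩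
      · obtain ⟨-, hyp, x, hx, hxy⟩ := mem_filter.1 hy
        obtain ⟨k, hk, a, ha, haC⟩ := ih x hx
        have hext := isW_snoc ha (hle hxy)
        have hlt : ∀ i < k + 1, (fun i => if i ≤ k then a i else y) i ∉ C := by
          intro i hi
          have hi' : i ≤ k := by omega
          simp only [hi', if_true]
          exact haC i hi'
        have hyC : y ∉ C := by
          intro hyC
          exact hyp (hσp (t + 1) y hyC ⟨k + 1, by omega, _, hext, hlt⟩)
        refine ⟨k + 1, by omega, _, hext, ?_⟩
        intro i hi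
        rcases Nat.lt_or_ge i (k + 1) with h | h
        · exact hlt i h
        · have : i = k + 1 := by omega
          subst this
          simpa using hyC
  have hlegal : Legal G₀ 2 w σ := by
    intro t ht
    refine ⟨hσ2 t ht, ?_⟩
    rw [disjoint_left]
    intro x hx hxb
    obtain ⟨k, -, a, ha, haC⟩ := hburn (t - 1) x hxb
    exact haC k le_rfl (by rw [ha.2.1]; exact hσC t hx)
  have hsub : Q ⊆ saved G₀ w σ := by
    intro v hv
    rw [saved, mem_filter]
    refine ⟨mem_univ _, fun t hvt => ?_⟩
    obtain ⟨k, -, a, ha, haC⟩ := hburn t v hvt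
    obtain ⟨i, hi, hiC⟩ := hQ v hv k a ha
    exact haC i hi hiC
  refine (card_le_card hsub).trans ?_
  apply le_csSup
  · refine ⟨Fintype.card V, ?_⟩
    rintro m ⟨σ', -, rfl⟩
    exact card_le_univ _
  · exact ⟨σ, hlegal, rfl⟩

end Pool.Agent.Helper92.FF
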