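import Pool.Agent.Helper34.FF.Goals1

namespace Pool.Agent.Helper92.FF

open Finset Pool.Agent.Helper34.FF
open scoped Classical

theorem ivt_up (f : ℕ → ℕ) (k r : ℕ) (h : ∀ i < k, f (i + 1) ≤ f i + 1) (h0 : f 0 ≤ r)
    (hk : r ≤ f k) : ∃ m ≤ k, f m = r := by
  induction k with
  | zero => exact ⟨0, le_rfl, le_antisymm h0 hk⟩
  | succ k ih =>
    rcases Nat.lt_or_ge (f k) r with hlt | hge
    · have := h k (Nat.lt_succ_self k)
      exact ⟨k + 1, le_rfl, by omega⟩
    · obtain ⟨m, hm, he⟩ := ih (fun i hi => h i (hi.trans (Nat.lt_succ_self k))) hge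
      exact ⟨m, hm.trans (Nat.le_succ k), he⟩

theorem ivt_down (f : ℕ → ℕ) (k r : ℕ) (h : ∀ i < k, f i ≤ f (i + 1) + 1) (h0 : r ≤ f 0)
    (hk : f k ≤ r) : ∃ m ≤ k, f m = r := by
  induction k with
  | zero => exact ⟨0, le_rfl, le_antisymm hk h0⟩
  | succ k ih =>
    rcases Nat.lt_or_ge r (f k) with hlt | hge
    · have := h k (Nat.lt_succ_self k)
      exact ⟨k + 1, le_rfl, by omega⟩
    · obtain ⟨m, hm, he⟩ := ih (fun i hi => h i (hi.trans (Nat.lt_succ_self k))) hge
      exact ⟨m, hm.trans (Nat.le_succ k), he⟩

section
variable {V : Type} {G : SimpleGraph V}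

theorem dist_adj (hG : G.Connected) (o : V) {x y : V} (h : G.Adj x y) :
    G.dist o y ≤ G.dist o x + 1 := by
  have h1 := hG.dist_triangle (u := o) (v := x) (w := y)
  have h2 : G.dist x y = 1 := SimpleGraph.dist_eq_one_iff_adj.2 h
  omega

theorem dist_walk (hG : G.Connected) (o : V) {k : ℕ} {a : ℕ → V} {x y : V}
    (h : IsW G k a x y) : ∀ m ≤ k, G.dist o (a m) ≤ G.dist o x + m ∧
      G.dist o x ≤ G.dist o (a m) + m := by
  intro m
  induction m with
  | zero => intro _; rw [h.1]; simp
  | succ m ih =>
    intro hm
    have h1 := ih (by omega)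
    have h2 := dist_adj hG o (h.2.2 m (by omega))
    have h3 := dist_adj hG o (h.2.2 m (by omega)).symm
    omega

/-- All distances up to the distance of `v` occur. -/
theorem exists_dist (hG : G.Connected) (o v : V) (r : ℕ) (hr : r ≤ G.dist o v) :
    ∃ x, G.dist o x = r := by
  obtain ⟨p, hp⟩ := hG.exists_walk_length_eq_dist o v
  obtain ⟨m, -, hm⟩ := ivt_up (fun i => G.dist o (p.getVert i)) p.length r
    (fun i hi => dist_adj hG o (p.adj_getVert_succ hi)) (by simp) (by simpa using hr)
  exact ⟨_, hm⟩

theorem level_small [Fintype V] (d : V → ℕ) (K : ℕ) (hK : 1 ≤ K) (s : ℕ) :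
    ∃ i, s ≤ i ∧ i < s + (Fintype.card V / K + 1) ∧
      (univ.filter fun x => d x = i).card < K := by
  by_contra hcon
  push Not at hcon
  have h1 : ((Ico s (s + (Fintype.card V / K + 1))).biUnion
      fun i => univ.filter fun x => d x = i).card =
      ∑ i ∈ Ico s (s + (Fintype.card V / K + 1)), (univ.filter fun x => d x = i).card := by
    apply card_biUnion
    intro i _ j _ hij
    simp only [Function.onFun]
    rw [disjoint_left]
    intro x hx hx'
    exact hij ((mem_filter.1 hx).2.symm.trans (mem_filter.1 hx').2)
  have h2 : (Fintype.card V / K + 1) * K ≤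
      ∑ i ∈ Ico s (s + (Fintype.card V / K + 1)), (univ.filter fun x => d x = i).card := by
    have : ∑ i ∈ Ico s (s + (Fintype.card V / K + 1)), K = (Fintype.card V / K + 1) * K := by
      simp
    rw [← this]
    apply sum_le_sum
    intro i hi
    rw [mem_Ico] at hi
    exact hcon i hi.1 hi.2
  have h3 : ((Ico s (s + (Fintype.card V / K + 1))).biUnion
      fun i => univ.filter fun x => d x = i).card ≤ Fintype.card V := card_le_univ _
  have h4 : Fintype.card V < (Fintype.card V / K + 1) * K := by
    have := Nat.lt_mul_div_succ (Fintype.card V) hK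
    rw [Nat.mul_comm]
    exact this
  omega

/-- A small level at distance at least `K` from `w` is a good barrier. -/
theorem good_level [Fintype V] (hG : G.Connected) (o w : V) (K i : ℕ)
    (hcard : (univ.filter fun x => G.dist o x = i).card < K)
    (hi : G.dist o w + K ≤ i ∨ i + K ≤ G.dist o w) :
    Good G w (univ.filter fun x => G.dist o x = i) := by
  refine ⟨?_, ?_⟩
  · rw [mem_filter]
    rintro ⟨-, h⟩
    omega
  · intro t ht
    rcases Nat.lt_or_ge t K with h | h
    · have : ((univ.filter fun x => G.dist o x = i).filter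
          fun c => Hits G (univ.filter fun x => G.dist o x = i) w t c) = ∅ := by
        rw [filter_eq_empty_iff]
        rintro c hc ⟨k, hk, a, ha, -⟩
        have hc' := (mem_filter.1 hc).2
        have h1 := dist_walk hG o ha k le_rfl
        rw [ha.2.1, hc'] at h1
        omega
      rw [this]
      simp
    · have h1 : ((univ.filter fun x => G.dist o x = i).filter
          fun c => Hits G (univ.filter fun x => G.dist o x = i) w t c).card ≤
          (univ.filter fun x => G.dist o x = i).card := card_filter_le _ _
      omega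

end

theorem pf_StmtRadius : StmtRadius := by
  intro V _ G hG e K hK ⟨w, hbad⟩ o v
  set M := Fintype.card V / K + 1 with hM
  -- the far side
  have hfar : ∀ v, G.dist o v < G.dist o w + K + M + e := by
    intro v
    by_contra hcon
    push Not at hcon
    obtain ⟨i, hi1, hi2, hi3⟩ := level_small (fun x => G.dist o x) K hK (G.dist o w + K)
    have hgood := good_level hG o w K i hi3 (Or.inl hi1)
    have hQ := hbad _ hgood (univ.filter fun x => i < G.dist o x) (by
      intro u hu k a ha
      have hu' := (mem_filter.1 hu).2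
      obtain ⟨m, hm, hd⟩ := ivt_up (fun j => G.dist o (a j)) k i
        (fun j hj => dist_adj hG o (ha.2.2 j hj)) (by simp only [ha.1]; omega)
        (by simp only [ha.2.1]; omega)
      exact ⟨m, hm, by rw [mem_filter]; exact ⟨mem_univ _, hd⟩⟩)
    have hle : e ≤ (univ.filter fun x => i < G.dist o x).card := by
      have h1 : Ioc i (i + e) ⊆ (univ.filter fun x => i < G.dist o x).image (G.dist o) := by
        intro r hr
        rw [mem_Ioc] at hr
        obtain ⟨x, hx⟩ := exists_dist hG o v r (by omega)
        rw [mem_image]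
        exact ⟨x, by rw [mem_filter]; exact ⟨mem_univ _, by omega⟩, hx⟩
      have h2 := (card_le_card h1).trans card_image_le
      simpa using h2
    omega
  have hnear : G.dist o w < K + M + e := by
    by_contra hcon
    push Not at hcon
    obtain ⟨i, hi1, hi2, hi3⟩ := level_small (fun x => G.dist o x) K hK (e + 1)
    have hgood := good_level hG o w K i hi3 (Or.inr (by omega))
    have hQ := hbad _ hgood (univ.filter fun x => G.dist o x < i) (by
      intro u hu k a ha
      have hu' := (mem_filter.1 hu).2
      obtain ⟨m, hm, hd⟩ := ivt_down (fun j => G.dist o (a j)) k i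
        (fun j hj => dist_adj hG o (ha.2.2 j hj).symm) (by simp only [ha.1]; omega)
        (by simp only [ha.2.1]; omega)
      exact ⟨m, hm, by rw [mem_filter]; exact ⟨mem_univ _, hd⟩⟩)
    have hle : e ≤ (univ.filter fun x => G.dist o x < i).card := by
      have h1 : range e ⊆ (univ.filter fun x => G.dist o x < i).image (G.dist o) := by
        intro r hr
        rw [mem_range] at hr
        obtain ⟨x, hx⟩ := exists_dist hG o w r (by omega)
        rw [mem_image]
        exact ⟨x, by rw [mem_filter]; exact ⟨mem_univ _, by omega⟩, hx⟩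
      have h2 := (card_le_card h1).trans card_image_le
      simpa using h2
    omega
  have := hfar v
  omega

end Pool.Agent.Helper92.FF
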